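import Pool.Agent.Lib.MP_77492d_lc.Red1b
import Pool.Agent.Lib.MP_77492d_lc.Red2
import Pool.Agent.Lib.MP_77492d_lc.Inj

set_option autoImplicit false

/-!
# VC-SEMIALG is complete for sentences `∃ X ∈ ℝ^n, ∀ Y ∈ {0, 1}^m, ∃ Z ∈ ℝ^l, Φ(X, Y, Z)`

The definitions are in `Pool/Agent/Lib/MP_77492d_lc/Defs.lean`.

The proof.
* From sentences to VC-SEMIALG (`Red1.lean`, `Red1b.lean`): the points are real numbers; the
  coordinate `X_j` of `X` is carried by a point strictly between `j` and `j + 1`, namely `j + u`
  with `X_j u (1 - u) = 2 u - 1`, the bit `j` is carried by the point `n + j`, `j ≤ m` (the last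
  one is a dummy bit). The parameter consists of `X'`, marks `e_s` in `{0, 1}` for these
  `k = n + m + 1` points, and `Z`; its set consists of the points with mark `1` (with `X'` in
  place of `X`), but it is empty if all marks of the first `n` points are `1` and
  `Φ(X', b, Z)` is false, `b` the marks of the bits. A shattered set with `k` points is a subset
  of one set of the family, so it has exactly one point for each mark, which gives `X`; its
  subsets that contain the first `n` points and the dummy point force `X' = X` and `Φ(X, b, Z)`.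
* From VC-SEMIALG to sentences (`Red2.lean`): `X` is the list of the `k` points, `Y` the
  indicator of the subset, `Z` the parameter.
* From a Boolean to a real universal block (`Red2.lean`): `Y ∉ {0, 1}^m` or `Φ`.
* Polynomial time: `Pool/Agent/Lib/PTime/`. Unique readability of the codes: `Inj.lean`.
-/

namespace Pool.Agent.Results.MP_77492d_lc.BooleanBlock

open Pool.Agent.Lib.MP_77492d_lc

theorem trans {α β γ : Type} {ca : α → List Letter} {A : α → Prop} {cb : β → List Letter}
    {B : β → Prop} {cc : γ → List Letter} {C : γ → Prop} (h : Reduces ca A cb B)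
    (h' : Reduces cb B cc C) : Reduces ca A cc C := by
  obtain ⟨f, ⟨M⟩, hf⟩ := h
  obtain ⟨f', ⟨M'⟩, hf'⟩ := h'
  exact ⟨f' ∘ f, Pool.Agent.Lib.CookLevin.polyTime_comp M M', fun a => (hf a).trans (hf' (f a))⟩

/-- (0) The codes are injective. (1) The truth of sentences `∃ X ∈ ℝ^n, ∀ Y ∈ {0, 1}^m, ∃ Z ∈ ℝ^l, Φ` reduces to VC-SEMIALG, by
a reduction whose values are families of finite subsets of the real line with at most `k`
points. (2) VC-SEMIALG
reduces to it. (3) VC-SEMIALG reduces to the truth of sentences
`∃ X ∈ ℝ^n, ∀ Y ∈ ℝ^m, ∃ Z ∈ ℝ^l, Φ`. (4) The truth of these sentences reduces to VC-SEMIALG iff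
it reduces to the truth of the sentences with `Y ∈ {0, 1}^m`. -/
theorem result :
    (Function.Injective VCInst.code ∧ Function.Injective Sent.code) ∧
    (∃ f : Sent → VCInst,
      Nonempty (Turing.TM2ComputableInPolyTime Sent.code VCInst.code f) ∧
      (∀ I, I.TrueB ↔ (f I).Yes) ∧
      ∀ I, (f I).n = 1 ∧ ∀ y, ((f I).S y).Finite ∧ ((f I).S y).ncard ≤ (f I).k) ∧
    Reduces VCInst.code VCInst.Yes Sent.code Sent.TrueB ∧
    Reduces VCInst.code VCInst.Yes Sent.code Sent.TrueR ∧
    (Reduces Sent.code Sent.TrueR VCInst.code VCInst.Yes ↔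
      Reduces Sent.code Sent.TrueR Sent.code Sent.TrueB) := by
  have h1 : Reduces Sent.code Sent.TrueB VCInst.code VCInst.Yes :=
    ⟨red1, R1.tm, fun I => ⟨R1.yes_of_true, R1.true_of_yes⟩⟩
  have h2 : Reduces VCInst.code VCInst.Yes Sent.code Sent.TrueB :=
    ⟨red2, R2.tm, fun I => ⟨R2.true_of_yes, R2.yes_of_true⟩⟩
  have h3 : Reduces Sent.code Sent.TrueB Sent.code Sent.TrueR := ⟨red3, R3.tm, R3.correct⟩
  exact ⟨⟨code_injective_inst, code_injective_sent⟩,
    ⟨red1, R1.tm, fun I => ⟨R1.yes_of_true, R1.true_of_yes⟩, R1.sets_small⟩, h2,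
    trans h2 h3, fun h => trans h h2, fun h => trans h h1⟩

end Pool.Agent.Results.MP_77492d_lc.BooleanBlock
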