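import Pool.Agent.Lib.VC77.LinP

/-!
# Real universal and existential blocks that are linear: reduction to VC-SEMIALG

All definitions are in `Pool/Agent/Lib/VC77/Base.lean` and `Pool/Agent/Lib/VC77/LinBase.lean`.

`LinSentence` is the type of the sentences
`∃ X ∈ ℝ ^ a, ∀ b ∈ {0, 1} ^ k, ∀ Y ∈ ℝ ^ m, ∃ Z ∈ ℝ ^ l, ∃ W ∈ ℝ ^ c, Ψ (X, b, σ, W)`, where `X`,
`Y`, `Z`, `W` are blocks of REAL variables, `Ψ` is quantifier-free, and `σ` lists the bits
`[ℓ_t (Y, Z) > 0]` and `[ℓ_t (Y, Z) < 0]` of `N` functions `ℓ_t` that are affine in `(Y, Z)`, with
coefficients that are arbitrary terms in `X` and `b`.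
`Sentence` is the type of the sentences `∃ X ∈ ℝ ^ a, ∀ b ∈ {0, 1} ^ k, ∃ Z ∈ ℝ ^ c, Φ (X, b, Z)`,
with a Boolean universal block, and `Instance` is the type of the instances `(n, m, k, φ)` of
VC-SEMIALG. `S.Holds` says that the sentence is true, `s.Yes` says that the Vapnik-Chervonenkis
dimension of the family is at least `k`.

The proof (`X`, `b` fixed). The set of the signs `σ` that are realised over a point `Y` depends only
on the signs of the functions `g_λ (Y) = ∑ t, λ_t ℓ_t (Y, 0)`, where `λ` runs through the vectors of
minimal support with `∑ t, λ_t ℓ_t` independent of `Z` (Motzkin's transposition theorem and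
conformal decomposition). After homogenisation, every sign cell of the `g_λ` and the coordinates
contains a sum of at most `m + 1` vectors, each of which is determined by `m` equations `F = 0` and
one equation `F = 1` or `F = -1`, where each `F` is a `g_λ` or a coordinate (conformal decomposition
again).
So it is enough to test points that are described by polynomially many bits: the supports of the
`λ`. The `λ`, the vectors, the point, `Z`, the signs and `W` are chosen after the bits, and for bits
that describe nothing there is a certificate (Fredholm's alternative).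
-/

set_option autoImplicit false

namespace Pool.Agent.Results.MP_77492d_lc.LinearBlock

open Turing
open Pool.Agent.Lib.VC77 Pool.Agent.Lib.VC77.TK Pool.Agent.Lib.VC77.LI

theorem result :
    (Function.Injective LinSentence.code ∧ Function.Injective Sentence.code ∧
      Function.Injective Instance.code) ∧
    (∃ f : LinSentence → Sentence,
      Nonempty (TM2ComputableInPolyTime LinSentence.code Sentence.code f) ∧
      ∀ S, S.Holds ↔ (f S).Holds) ∧
    ∃ g : LinSentence → Instance,
      Nonempty (TM2ComputableInPolyTime LinSentence.code Instance.code g) ∧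
      ∀ S, S.Holds ↔ (g S).Yes := by
  have h2 : ∀ s : Sentence, s.Holds ↔ (instanceOf s).Yes := fun s => (LN.vc_toLine s.Φ).symm
  rw [← code_lin, ← code_sentence, ← code_instance]
  exact ⟨⟨code_linSentence_injective, code_sentence_injective, code_instance_injective⟩,
    ⟨linOf, Pool.Agent.Lib.PolyFun.tm2_code_of_PT _ pt_linOf, fun S => (linOf_holds S).symm⟩,
    ⟨fun S => instanceOf (linOf S), Pool.Agent.Lib.PolyFun.tm2_code_of_PT _
      (pt_instanceOf.comp pt_linOf), fun S => (linOf_holds S).symm.trans (h2 _)⟩⟩

end Pool.Agent.Results.MP_77492d_lc.LinearBlock
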